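import Mathlib

set_option autoImplicit false

namespace Pool.Agent.H.MP_d7b467_co

abbrev Tab := Fin 4 → Fin 10 → Fin 10 → ℕ

def ofArr (A : Fin 10 → Fin 10 → ℕ) : Tab := fun i j k => if A j k = i.1 + 1 then 1 else 0

def x : Tab := ofArr ![![1, 1, 2, 3, 0, 0, 0, 0, 0, 0], ![1, 1, 0, 0, 2, 3, 0, 0, 0, 0], ![2, 0, 0, 0, 0, 1, 4, 0, 0, 0], ![3, 0, 0, 0, 0, 0, 0, 1, 0, 0], ![0, 2, 0, 1, 0, 0, 0, 0, 4, 0], ![0, 3, 1, 0, 0, 0, 0, 0, 0, 4], ![0, 0, 4, 0, 0, 0, 0, 0, 2, 0], ![0, 0, 0, 4, 0, 0, 0, 0, 0, 3], ![0, 0, 0, 0, 1, 0, 2, 3, 0, 0], ![0, 0, 0, 0, 0, 4, 3, 0, 0, 0]]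
def y : Tab := ofArr ![![2, 3, 1, 1, 0, 0, 0, 0, 0, 0], ![3, 2, 0, 0, 1, 1, 0, 0, 0, 0], ![1, 0, 0, 0, 0, 4, 2, 0, 0, 0], ![1, 0, 0, 0, 0, 0, 0, 3, 0, 0], ![0, 1, 0, 4, 0, 0, 0, 0, 2, 0], ![0, 1, 4, 0, 0, 0, 0, 0, 0, 3], ![0, 0, 2, 0, 0, 0, 0, 0, 4, 0], ![0, 0, 0, 3, 0, 0, 0, 0, 0, 4], ![0, 0, 0, 0, 2, 0, 3, 1, 0, 0], ![0, 0, 0, 0, 0, 3, 4, 0, 0, 0]]
def z : Tab := ofArr ![![3, 2, 1, 1, 0, 0, 0, 0, 0, 0], ![2, 3, 0, 0, 1, 1, 0, 0, 0, 0], ![1, 0, 0, 0, 0, 4, 2, 0, 0, 0], ![1, 0, 0, 0, 0, 0, 0, 3, 0, 0], ![0, 1, 0, 4, 0, 0, 0, 0, 2, 0], ![0, 1, 4, 0, 0, 0, 0, 0, 0, 3], ![0, 0, 2, 0, 0, 0, 0, 0, 4, 0], ![0, 0, 0, 3, 0, 0, 0, 0, 0, 4], ![0, 0, 0, 0, 2, 0, 3, 1, 0, 0], ![0, 0, 0, 0, 0, 3, 4, 0, 0, 0]]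

def L : List (Fin 4 × Fin 10 × Fin 10) := [(0,0,0), (1,0,0), (2,0,0), (0,0,1), (1,0,1), (2,0,1), (0,0,2), (1,0,2), (0,0,3), (2,0,3), (0,1,0), (1,1,0), (2,1,0), (0,1,1), (1,1,1), (2,1,1), (0,1,4), (1,1,4), (0,1,5), (2,1,5), (0,2,0), (1,2,0), (0,2,5), (3,2,5), (1,2,6), (3,2,6), (0,3,0), (2,3,0), (0,3,7), (2,3,7), (0,4,1), (1,4,1), (0,4,3), (3,4,3), (1,4,8), (3,4,8), (0,5,1), (2,5,1), (0,5,2), (3,5,2), (2,5,9), (3,5,9), (1,6,2), (3,6,2), (1,6,8), (3,6,8), (2,7,3), (3,7,3), (2,7,9), (3,7,9), (0,8,4), (1,8,4), (1,8,6), (2,8,6), (0,8,7), (2,8,7), (2,9,5), (3,9,5), (2,9,6), (3,9,6)]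

def al (i : Fin 4) (j k : Fin 10) : Bool := Nat.testBit 242087177234407263790824114813118020986186893412780134117278763980343987550472304607054032780161905109756151501711002639 (100 * i.1 + 10 * j.1 + k.1)

theorem al_spec : ∀ (i : Fin 4) (j k : Fin 10), al i j k = false → (i, j, k) ∉ L := by
  decide +kernel

theorem L_spec : ∀ (i : Fin 4) (j k : Fin 10), (i, j, k) ∉ L →
    (∑ k', x i j k' = 0 ∨ ∑ j', x i j' k = 0 ∨ ∑ i', x i' j k = 0) := by decide +kernel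

theorem L_zero : ∀ (i : Fin 4) (j k : Fin 10), (i, j, k) ∉ L →
    x i j k = 0 ∧ y i j k = 0 ∧ z i j k = 0 := by decide +kernel

theorem sum10 (f : Fin 10 → ℕ) :
    ∑ k, f k = f 0 + f 1 + f 2 + f 3 + f 4 + f 5 + f 6 + f 7 + f 8 + f 9 := by
  simp only [Fin.sum_univ_succ, Fin.sum_univ_zero]
  simp only [add_assoc, add_zero]
  rfl

theorem ext_of (w v : Tab) (h0 : ∀ i j k, (i, j, k) ∉ L → w i j k = 0)
    (h1 : ∀ i j k, (i, j, k) ∉ L → v i j k = 0)
    (h2 : ∀ p ∈ L, w p.1 p.2.1 p.2.2 = v p.1 p.2.1 p.2.2) : w = v := by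
  funext i j k
  by_cases h : (i, j, k) ∈ L
  · exact h2 _ h
  · rw [h0 i j k h, h1 i j k h]

theorem fiber (w : Tab) (hR : ∀ i j, ∑ k, w i j k = ∑ k, x i j k)
    (hC : ∀ i k, ∑ j, w i j k = ∑ j, x i j k) (hM : ∀ j k, ∑ i, w i j k = ∑ i, x i j k) :
    w = x ∨ w = y ∨ w = z := by
  have h0 : ∀ i j k, (i, j, k) ∉ L → w i j k = 0 := by
    intro i j k h
    rcases L_spec i j k h with h | h | h
    · rw [← hR, Finset.sum_eq_zero_iff] at h; exact h k (Finset.mem_univ _)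
    · rw [← hC, Finset.sum_eq_zero_iff] at h; exact h j (Finset.mem_univ _)
    · rw [← hM, Finset.sum_eq_zero_iff] at h; exact h i (Finset.mem_univ _)
  have h1 : ∀ i j k, al i j k = false → w i j k = 0 := fun i j k h => h0 i j k (al_spec i j k h)
  have r00 : w 0 0 0 + w 0 0 1 + w 0 0 2 + w 0 0 3 = 2 := by
    have h := (hR 0 0).trans (show ∑ k, x 0 0 k = 2 by decide +kernel)
    rw [sum10, h1 0 0 4 rfl, h1 0 0 5 rfl, h1 0 0 6 rfl, h1 0 0 7 rfl, h1 0 0 8 rfl, h1 0 0 9 rfl] at h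
    clear * - h
    omega
  have r01 : w 0 1 0 + w 0 1 1 + w 0 1 4 + w 0 1 5 = 2 := by
    have h := (hR 0 1).trans (show ∑ k, x 0 1 k = 2 by decide +kernel)
    rw [sum10, h1 0 1 2 rfl, h1 0 1 3 rfl, h1 0 1 6 rfl, h1 0 1 7 rfl, h1 0 1 8 rfl, h1 0 1 9 rfl] at h
    clear * - h
    omega
  have r02 : w 0 2 0 + w 0 2 5 = 1 := by
    have h := (hR 0 2).trans (show ∑ k, x 0 2 k = 1 by decide +kernel)
    rw [sum10, h1 0 2 1 rfl, h1 0 2 2 rfl, h1 0 2 3 rfl, h1 0 2 4 rfl, h1 0 2 6 rfl, h1 0 2 7 rfl, h1 0 2 8 rfl, h1 0 2 9 rfl] at h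
    clear * - h
    omega
  have r03 : w 0 3 0 + w 0 3 7 = 1 := by
    have h := (hR 0 3).trans (show ∑ k, x 0 3 k = 1 by decide +kernel)
    rw [sum10, h1 0 3 1 rfl, h1 0 3 2 rfl, h1 0 3 3 rfl, h1 0 3 4 rfl, h1 0 3 5 rfl, h1 0 3 6 rfl, h1 0 3 8 rfl, h1 0 3 9 rfl] at h
    clear * - h
    omega
  have r04 : w 0 4 1 + w 0 4 3 = 1 := by
    have h := (hR 0 4).trans (show ∑ k, x 0 4 k = 1 by decide +kernel)
    rw [sum10, h1 0 4 0 rfl, h1 0 4 2 rfl, h1 0 4 4 rfl, h1 0 4 5 rfl, h1 0 4 6 rfl, h1 0 4 7 rfl, h1 0 4 8 rfl, h1 0 4 9 rfl] at h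
    clear * - h
    omega
  have r05 : w 0 5 1 + w 0 5 2 = 1 := by
    have h := (hR 0 5).trans (show ∑ k, x 0 5 k = 1 by decide +kernel)
    rw [sum10, h1 0 5 0 rfl, h1 0 5 3 rfl, h1 0 5 4 rfl, h1 0 5 5 rfl, h1 0 5 6 rfl, h1 0 5 7 rfl, h1 0 5 8 rfl, h1 0 5 9 rfl] at h
    clear * - h
    omega
  have r08 : w 0 8 4 + w 0 8 7 = 1 := by
    have h := (hR 0 8).trans (show ∑ k, x 0 8 k = 1 by decide +kernel)
    rw [sum10, h1 0 8 0 rfl, h1 0 8 1 rfl, h1 0 8 2 rfl, h1 0 8 3 rfl, h1 0 8 5 rfl, h1 0 8 6 rfl, h1 0 8 8 rfl, h1 0 8 9 rfl] at h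
    clear * - h
    omega
  have c00 : w 0 0 0 + w 0 1 0 + w 0 2 0 + w 0 3 0 = 2 := by
    have h := (hC 0 0).trans (show ∑ j, x 0 j 0 = 2 by decide +kernel)
    rw [sum10, h1 0 4 0 rfl, h1 0 5 0 rfl, h1 0 6 0 rfl, h1 0 7 0 rfl, h1 0 8 0 rfl, h1 0 9 0 rfl] at h
    clear * - h
    omega
  have c01 : w 0 0 1 + w 0 1 1 + w 0 4 1 + w 0 5 1 = 2 := by
    have h := (hC 0 1).trans (show ∑ j, x 0 j 1 = 2 by decide +kernel)
    rw [sum10, h1 0 2 1 rfl, h1 0 3 1 rfl, h1 0 6 1 rfl, h1 0 7 1 rfl, h1 0 8 1 rfl, h1 0 9 1 rfl] at h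
    clear * - h
    omega
  have c02 : w 0 0 2 + w 0 5 2 = 1 := by
    have h := (hC 0 2).trans (show ∑ j, x 0 j 2 = 1 by decide +kernel)
    rw [sum10, h1 0 1 2 rfl, h1 0 2 2 rfl, h1 0 3 2 rfl, h1 0 4 2 rfl, h1 0 6 2 rfl, h1 0 7 2 rfl, h1 0 8 2 rfl, h1 0 9 2 rfl] at h
    clear * - h
    omega
  have c03 : w 0 0 3 + w 0 4 3 = 1 := by
    have h := (hC 0 3).trans (show ∑ j, x 0 j 3 = 1 by decide +kernel)
    rw [sum10, h1 0 1 3 rfl, h1 0 2 3 rfl, h1 0 3 3 rfl, h1 0 5 3 rfl, h1 0 6 3 rfl, h1 0 7 3 rfl, h1 0 8 3 rfl, h1 0 9 3 rfl] at h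
    clear * - h
    omega
  have c04 : w 0 1 4 + w 0 8 4 = 1 := by
    have h := (hC 0 4).trans (show ∑ j, x 0 j 4 = 1 by decide +kernel)
    rw [sum10, h1 0 0 4 rfl, h1 0 2 4 rfl, h1 0 3 4 rfl, h1 0 4 4 rfl, h1 0 5 4 rfl, h1 0 6 4 rfl, h1 0 7 4 rfl, h1 0 9 4 rfl] at h
    clear * - h
    omega
  have c05 : w 0 1 5 + w 0 2 5 = 1 := by
    have h := (hC 0 5).trans (show ∑ j, x 0 j 5 = 1 by decide +kernel)
    rw [sum10, h1 0 0 5 rfl, h1 0 3 5 rfl, h1 0 4 5 rfl, h1 0 5 5 rfl, h1 0 6 5 rfl, h1 0 7 5 rfl, h1 0 8 5 rfl, h1 0 9 5 rfl] at h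
    clear * - h
    omega
  have c07 : w 0 3 7 + w 0 8 7 = 1 := by
    have h := (hC 0 7).trans (show ∑ j, x 0 j 7 = 1 by decide +kernel)
    rw [sum10, h1 0 0 7 rfl, h1 0 1 7 rfl, h1 0 2 7 rfl, h1 0 4 7 rfl, h1 0 5 7 rfl, h1 0 6 7 rfl, h1 0 7 7 rfl, h1 0 9 7 rfl] at h
    clear * - h
    omega
  have r10 : w 1 0 0 + w 1 0 1 + w 1 0 2 = 1 := by
    have h := (hR 1 0).trans (show ∑ k, x 1 0 k = 1 by decide +kernel)
    rw [sum10, h1 1 0 3 rfl, h1 1 0 4 rfl, h1 1 0 5 rfl, h1 1 0 6 rfl, h1 1 0 7 rfl, h1 1 0 8 rfl, h1 1 0 9 rfl] at h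
    clear * - h
    omega
  have r11 : w 1 1 0 + w 1 1 1 + w 1 1 4 = 1 := by
    have h := (hR 1 1).trans (show ∑ k, x 1 1 k = 1 by decide +kernel)
    rw [sum10, h1 1 1 2 rfl, h1 1 1 3 rfl, h1 1 1 5 rfl, h1 1 1 6 rfl, h1 1 1 7 rfl, h1 1 1 8 rfl, h1 1 1 9 rfl] at h
    clear * - h
    omega
  have r12 : w 1 2 0 + w 1 2 6 = 1 := by
    have h := (hR 1 2).trans (show ∑ k, x 1 2 k = 1 by decide +kernel)
    rw [sum10, h1 1 2 1 rfl, h1 1 2 2 rfl, h1 1 2 3 rfl, h1 1 2 4 rfl, h1 1 2 5 rfl, h1 1 2 7 rfl, h1 1 2 8 rfl, h1 1 2 9 rfl] at h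
    clear * - h
    omega
  have r14 : w 1 4 1 + w 1 4 8 = 1 := by
    have h := (hR 1 4).trans (show ∑ k, x 1 4 k = 1 by decide +kernel)
    rw [sum10, h1 1 4 0 rfl, h1 1 4 2 rfl, h1 1 4 3 rfl, h1 1 4 4 rfl, h1 1 4 5 rfl, h1 1 4 6 rfl, h1 1 4 7 rfl, h1 1 4 9 rfl] at h
    clear * - h
    omega
  have r16 : w 1 6 2 + w 1 6 8 = 1 := by
    have h := (hR 1 6).trans (show ∑ k, x 1 6 k = 1 by decide +kernel)
    rw [sum10, h1 1 6 0 rfl, h1 1 6 1 rfl, h1 1 6 3 rfl, h1 1 6 4 rfl, h1 1 6 5 rfl, h1 1 6 6 rfl, h1 1 6 7 rfl, h1 1 6 9 rfl] at h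
    clear * - h
    omega
  have r18 : w 1 8 4 + w 1 8 6 = 1 := by
    have h := (hR 1 8).trans (show ∑ k, x 1 8 k = 1 by decide +kernel)
    rw [sum10, h1 1 8 0 rfl, h1 1 8 1 rfl, h1 1 8 2 rfl, h1 1 8 3 rfl, h1 1 8 5 rfl, h1 1 8 7 rfl, h1 1 8 8 rfl, h1 1 8 9 rfl] at h
    clear * - h
    omega
  have c10 : w 1 0 0 + w 1 1 0 + w 1 2 0 = 1 := by
    have h := (hC 1 0).trans (show ∑ j, x 1 j 0 = 1 by decide +kernel)
    rw [sum10, h1 1 3 0 rfl, h1 1 4 0 rfl, h1 1 5 0 rfl, h1 1 6 0 rfl, h1 1 7 0 rfl, h1 1 8 0 rfl, h1 1 9 0 rfl] at h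
    clear * - h
    omega
  have c11 : w 1 0 1 + w 1 1 1 + w 1 4 1 = 1 := by
    have h := (hC 1 1).trans (show ∑ j, x 1 j 1 = 1 by decide +kernel)
    rw [sum10, h1 1 2 1 rfl, h1 1 3 1 rfl, h1 1 5 1 rfl, h1 1 6 1 rfl, h1 1 7 1 rfl, h1 1 8 1 rfl, h1 1 9 1 rfl] at h
    clear * - h
    omega
  have c12 : w 1 0 2 + w 1 6 2 = 1 := by
    have h := (hC 1 2).trans (show ∑ j, x 1 j 2 = 1 by decide +kernel)
    rw [sum10, h1 1 1 2 rfl, h1 1 2 2 rfl, h1 1 3 2 rfl, h1 1 4 2 rfl, h1 1 5 2 rfl, h1 1 7 2 rfl, h1 1 8 2 rfl, h1 1 9 2 rfl] at h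
    clear * - h
    omega
  have c14 : w 1 1 4 + w 1 8 4 = 1 := by
    have h := (hC 1 4).trans (show ∑ j, x 1 j 4 = 1 by decide +kernel)
    rw [sum10, h1 1 0 4 rfl, h1 1 2 4 rfl, h1 1 3 4 rfl, h1 1 4 4 rfl, h1 1 5 4 rfl, h1 1 6 4 rfl, h1 1 7 4 rfl, h1 1 9 4 rfl] at h
    clear * - h
    omega
  have c16 : w 1 2 6 + w 1 8 6 = 1 := by
    have h := (hC 1 6).trans (show ∑ j, x 1 j 6 = 1 by decide +kernel)
    rw [sum10, h1 1 0 6 rfl, h1 1 1 6 rfl, h1 1 3 6 rfl, h1 1 4 6 rfl, h1 1 5 6 rfl, h1 1 6 6 rfl, h1 1 7 6 rfl, h1 1 9 6 rfl] at h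
    clear * - h
    omega
  have c18 : w 1 4 8 + w 1 6 8 = 1 := by
    have h := (hC 1 8).trans (show ∑ j, x 1 j 8 = 1 by decide +kernel)
    rw [sum10, h1 1 0 8 rfl, h1 1 1 8 rfl, h1 1 2 8 rfl, h1 1 3 8 rfl, h1 1 5 8 rfl, h1 1 7 8 rfl, h1 1 8 8 rfl, h1 1 9 8 rfl] at h
    clear * - h
    omega
  have r20 : w 2 0 0 + w 2 0 1 + w 2 0 3 = 1 := by
    have h := (hR 2 0).trans (show ∑ k, x 2 0 k = 1 by decide +kernel)
    rw [sum10, h1 2 0 2 rfl, h1 2 0 4 rfl, h1 2 0 5 rfl, h1 2 0 6 rfl, h1 2 0 7 rfl, h1 2 0 8 rfl, h1 2 0 9 rfl] at h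
    clear * - h
    omega
  have r21 : w 2 1 0 + w 2 1 1 + w 2 1 5 = 1 := by
    have h := (hR 2 1).trans (show ∑ k, x 2 1 k = 1 by decide +kernel)
    rw [sum10, h1 2 1 2 rfl, h1 2 1 3 rfl, h1 2 1 4 rfl, h1 2 1 6 rfl, h1 2 1 7 rfl, h1 2 1 8 rfl, h1 2 1 9 rfl] at h
    clear * - h
    omega
  have r23 : w 2 3 0 + w 2 3 7 = 1 := by
    have h := (hR 2 3).trans (show ∑ k, x 2 3 k = 1 by decide +kernel)
    rw [sum10, h1 2 3 1 rfl, h1 2 3 2 rfl, h1 2 3 3 rfl, h1 2 3 4 rfl, h1 2 3 5 rfl, h1 2 3 6 rfl, h1 2 3 8 rfl, h1 2 3 9 rfl] at h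
    clear * - h
    omega
  have r25 : w 2 5 1 + w 2 5 9 = 1 := by
    have h := (hR 2 5).trans (show ∑ k, x 2 5 k = 1 by decide +kernel)
    rw [sum10, h1 2 5 0 rfl, h1 2 5 2 rfl, h1 2 5 3 rfl, h1 2 5 4 rfl, h1 2 5 5 rfl, h1 2 5 6 rfl, h1 2 5 7 rfl, h1 2 5 8 rfl] at h
    clear * - h
    omega
  have r27 : w 2 7 3 + w 2 7 9 = 1 := by
    have h := (hR 2 7).trans (show ∑ k, x 2 7 k = 1 by decide +kernel)
    rw [sum10, h1 2 7 0 rfl, h1 2 7 1 rfl, h1 2 7 2 rfl, h1 2 7 4 rfl, h1 2 7 5 rfl, h1 2 7 6 rfl, h1 2 7 7 rfl, h1 2 7 8 rfl] at h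
    clear * - h
    omega
  have r28 : w 2 8 6 + w 2 8 7 = 1 := by
    have h := (hR 2 8).trans (show ∑ k, x 2 8 k = 1 by decide +kernel)
    rw [sum10, h1 2 8 0 rfl, h1 2 8 1 rfl, h1 2 8 2 rfl, h1 2 8 3 rfl, h1 2 8 4 rfl, h1 2 8 5 rfl, h1 2 8 8 rfl, h1 2 8 9 rfl] at h
    clear * - h
    omega
  have r29 : w 2 9 5 + w 2 9 6 = 1 := by
    have h := (hR 2 9).trans (show ∑ k, x 2 9 k = 1 by decide +kernel)
    rw [sum10, h1 2 9 0 rfl, h1 2 9 1 rfl, h1 2 9 2 rfl, h1 2 9 3 rfl, h1 2 9 4 rfl, h1 2 9 7 rfl, h1 2 9 8 rfl, h1 2 9 9 rfl] at h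
    clear * - h
    omega
  have c20 : w 2 0 0 + w 2 1 0 + w 2 3 0 = 1 := by
    have h := (hC 2 0).trans (show ∑ j, x 2 j 0 = 1 by decide +kernel)
    rw [sum10, h1 2 2 0 rfl, h1 2 4 0 rfl, h1 2 5 0 rfl, h1 2 6 0 rfl, h1 2 7 0 rfl, h1 2 8 0 rfl, h1 2 9 0 rfl] at h
    clear * - h
    omega
  have c21 : w 2 0 1 + w 2 1 1 + w 2 5 1 = 1 := by
    have h := (hC 2 1).trans (show ∑ j, x 2 j 1 = 1 by decide +kernel)
    rw [sum10, h1 2 2 1 rfl, h1 2 3 1 rfl, h1 2 4 1 rfl, h1 2 6 1 rfl, h1 2 7 1 rfl, h1 2 8 1 rfl, h1 2 9 1 rfl] at h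
    clear * - h
    omega
  have c23 : w 2 0 3 + w 2 7 3 = 1 := by
    have h := (hC 2 3).trans (show ∑ j, x 2 j 3 = 1 by decide +kernel)
    rw [sum10, h1 2 1 3 rfl, h1 2 2 3 rfl, h1 2 3 3 rfl, h1 2 4 3 rfl, h1 2 5 3 rfl, h1 2 6 3 rfl, h1 2 8 3 rfl, h1 2 9 3 rfl] at h
    clear * - h
    omega
  have c25 : w 2 1 5 + w 2 9 5 = 1 := by
    have h := (hC 2 5).trans (show ∑ j, x 2 j 5 = 1 by decide +kernel)
    rw [sum10, h1 2 0 5 rfl, h1 2 2 5 rfl, h1 2 3 5 rfl, h1 2 4 5 rfl, h1 2 5 5 rfl, h1 2 6 5 rfl, h1 2 7 5 rfl, h1 2 8 5 rfl] at h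
    clear * - h
    omega
  have c26 : w 2 8 6 + w 2 9 6 = 1 := by
    have h := (hC 2 6).trans (show ∑ j, x 2 j 6 = 1 by decide +kernel)
    rw [sum10, h1 2 0 6 rfl, h1 2 1 6 rfl, h1 2 2 6 rfl, h1 2 3 6 rfl, h1 2 4 6 rfl, h1 2 5 6 rfl, h1 2 6 6 rfl, h1 2 7 6 rfl] at h
    clear * - h
    omega
  have c27 : w 2 3 7 + w 2 8 7 = 1 := by
    have h := (hC 2 7).trans (show ∑ j, x 2 j 7 = 1 by decide +kernel)
    rw [sum10, h1 2 0 7 rfl, h1 2 1 7 rfl, h1 2 2 7 rfl, h1 2 4 7 rfl, h1 2 5 7 rfl, h1 2 6 7 rfl, h1 2 7 7 rfl, h1 2 9 7 rfl] at h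
    clear * - h
    omega
  have c29 : w 2 5 9 + w 2 7 9 = 1 := by
    have h := (hC 2 9).trans (show ∑ j, x 2 j 9 = 1 by decide +kernel)
    rw [sum10, h1 2 0 9 rfl, h1 2 1 9 rfl, h1 2 2 9 rfl, h1 2 3 9 rfl, h1 2 4 9 rfl, h1 2 6 9 rfl, h1 2 8 9 rfl, h1 2 9 9 rfl] at h
    clear * - h
    omega
  have r32 : w 3 2 5 + w 3 2 6 = 1 := by
    have h := (hR 3 2).trans (show ∑ k, x 3 2 k = 1 by decide +kernel)
    rw [sum10, h1 3 2 0 rfl, h1 3 2 1 rfl, h1 3 2 2 rfl, h1 3 2 3 rfl, h1 3 2 4 rfl, h1 3 2 7 rfl, h1 3 2 8 rfl, h1 3 2 9 rfl] at h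
    clear * - h
    omega
  have r34 : w 3 4 3 + w 3 4 8 = 1 := by
    have h := (hR 3 4).trans (show ∑ k, x 3 4 k = 1 by decide +kernel)
    rw [sum10, h1 3 4 0 rfl, h1 3 4 1 rfl, h1 3 4 2 rfl, h1 3 4 4 rfl, h1 3 4 5 rfl, h1 3 4 6 rfl, h1 3 4 7 rfl, h1 3 4 9 rfl] at h
    clear * - h
    omega
  have r35 : w 3 5 2 + w 3 5 9 = 1 := by
    have h := (hR 3 5).trans (show ∑ k, x 3 5 k = 1 by decide +kernel)
    rw [sum10, h1 3 5 0 rfl, h1 3 5 1 rfl, h1 3 5 3 rfl, h1 3 5 4 rfl, h1 3 5 5 rfl, h1 3 5 6 rfl, h1 3 5 7 rfl, h1 3 5 8 rfl] at h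
    clear * - h
    omega
  have r36 : w 3 6 2 + w 3 6 8 = 1 := by
    have h := (hR 3 6).trans (show ∑ k, x 3 6 k = 1 by decide +kernel)
    rw [sum10, h1 3 6 0 rfl, h1 3 6 1 rfl, h1 3 6 3 rfl, h1 3 6 4 rfl, h1 3 6 5 rfl, h1 3 6 6 rfl, h1 3 6 7 rfl, h1 3 6 9 rfl] at h
    clear * - h
    omega
  have r37 : w 3 7 3 + w 3 7 9 = 1 := by
    have h := (hR 3 7).trans (show ∑ k, x 3 7 k = 1 by decide +kernel)
    rw [sum10, h1 3 7 0 rfl, h1 3 7 1 rfl, h1 3 7 2 rfl, h1 3 7 4 rfl, h1 3 7 5 rfl, h1 3 7 6 rfl, h1 3 7 7 rfl, h1 3 7 8 rfl] at h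
    clear * - h
    omega
  have r39 : w 3 9 5 + w 3 9 6 = 1 := by
    have h := (hR 3 9).trans (show ∑ k, x 3 9 k = 1 by decide +kernel)
    rw [sum10, h1 3 9 0 rfl, h1 3 9 1 rfl, h1 3 9 2 rfl, h1 3 9 3 rfl, h1 3 9 4 rfl, h1 3 9 7 rfl, h1 3 9 8 rfl, h1 3 9 9 rfl] at h
    clear * - h
    omega
  have c32 : w 3 5 2 + w 3 6 2 = 1 := by
    have h := (hC 3 2).trans (show ∑ j, x 3 j 2 = 1 by decide +kernel)
    rw [sum10, h1 3 0 2 rfl, h1 3 1 2 rfl, h1 3 2 2 rfl, h1 3 3 2 rfl, h1 3 4 2 rfl, h1 3 7 2 rfl, h1 3 8 2 rfl, h1 3 9 2 rfl] at h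
    clear * - h
    omega
  have c33 : w 3 4 3 + w 3 7 3 = 1 := by
    have h := (hC 3 3).trans (show ∑ j, x 3 j 3 = 1 by decide +kernel)
    rw [sum10, h1 3 0 3 rfl, h1 3 1 3 rfl, h1 3 2 3 rfl, h1 3 3 3 rfl, h1 3 5 3 rfl, h1 3 6 3 rfl, h1 3 8 3 rfl, h1 3 9 3 rfl] at h
    clear * - h
    omega
  have c35 : w 3 2 5 + w 3 9 5 = 1 := by
    have h := (hC 3 5).trans (show ∑ j, x 3 j 5 = 1 by decide +kernel)
    rw [sum10, h1 3 0 5 rfl, h1 3 1 5 rfl, h1 3 3 5 rfl, h1 3 4 5 rfl, h1 3 5 5 rfl, h1 3 6 5 rfl, h1 3 7 5 rfl, h1 3 8 5 rfl] at h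
    clear * - h
    omega
  have c36 : w 3 2 6 + w 3 9 6 = 1 := by
    have h := (hC 3 6).trans (show ∑ j, x 3 j 6 = 1 by decide +kernel)
    rw [sum10, h1 3 0 6 rfl, h1 3 1 6 rfl, h1 3 3 6 rfl, h1 3 4 6 rfl, h1 3 5 6 rfl, h1 3 6 6 rfl, h1 3 7 6 rfl, h1 3 8 6 rfl] at h
    clear * - h
    omega
  have c38 : w 3 4 8 + w 3 6 8 = 1 := by
    have h := (hC 3 8).trans (show ∑ j, x 3 j 8 = 1 by decide +kernel)
    rw [sum10, h1 3 0 8 rfl, h1 3 1 8 rfl, h1 3 2 8 rfl, h1 3 3 8 rfl, h1 3 5 8 rfl, h1 3 7 8 rfl, h1 3 8 8 rfl, h1 3 9 8 rfl] at h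
    clear * - h
    omega
  have c39 : w 3 5 9 + w 3 7 9 = 1 := by
    have h := (hC 3 9).trans (show ∑ j, x 3 j 9 = 1 by decide +kernel)
    rw [sum10, h1 3 0 9 rfl, h1 3 1 9 rfl, h1 3 2 9 rfl, h1 3 3 9 rfl, h1 3 4 9 rfl, h1 3 6 9 rfl, h1 3 8 9 rfl, h1 3 9 9 rfl] at h
    clear * - h
    omega
  have m00 : w 0 0 0 + w 1 0 0 + w 2 0 0 = 1 := by
    have h := (hM 0 0).trans (show ∑ i, x i 0 0 = 1 by decide +kernel)
    rw [Fin.sum_univ_four, h1 3 0 0 rfl] at h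
    clear * - h
    omega
  have m01 : w 0 0 1 + w 1 0 1 + w 2 0 1 = 1 := by
    have h := (hM 0 1).trans (show ∑ i, x i 0 1 = 1 by decide +kernel)
    rw [Fin.sum_univ_four, h1 3 0 1 rfl] at h
    clear * - h
    omega
  have m02 : w 0 0 2 + w 1 0 2 = 1 := by
    have h := (hM 0 2).trans (show ∑ i, x i 0 2 = 1 by decide +kernel)
    rw [Fin.sum_univ_four, h1 2 0 2 rfl, h1 3 0 2 rfl] at h
    clear * - h
    omega
  have m03 : w 0 0 3 + w 2 0 3 = 1 := by
    have h := (hM 0 3).trans (show ∑ i, x i 0 3 = 1 by decide +kernel)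
    rw [Fin.sum_univ_four, h1 1 0 3 rfl, h1 3 0 3 rfl] at h
    clear * - h
    omega
  have m10 : w 0 1 0 + w 1 1 0 + w 2 1 0 = 1 := by
    have h := (hM 1 0).trans (show ∑ i, x i 1 0 = 1 by decide +kernel)
    rw [Fin.sum_univ_four, h1 3 1 0 rfl] at h
    clear * - h
    omega
  have m11 : w 0 1 1 + w 1 1 1 + w 2 1 1 = 1 := by
    have h := (hM 1 1).trans (show ∑ i, x i 1 1 = 1 by decide +kernel)
    rw [Fin.sum_univ_four, h1 3 1 1 rfl] at h
    clear * - h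
    omega
  have m14 : w 0 1 4 + w 1 1 4 = 1 := by
    have h := (hM 1 4).trans (show ∑ i, x i 1 4 = 1 by decide +kernel)
    rw [Fin.sum_univ_four, h1 2 1 4 rfl, h1 3 1 4 rfl] at h
    clear * - h
    omega
  have m15 : w 0 1 5 + w 2 1 5 = 1 := by
    have h := (hM 1 5).trans (show ∑ i, x i 1 5 = 1 by decide +kernel)
    rw [Fin.sum_univ_four, h1 1 1 5 rfl, h1 3 1 5 rfl] at h
    clear * - h
    omega
  have m20 : w 0 2 0 + w 1 2 0 = 1 := by
    have h := (hM 2 0).trans (show ∑ i, x i 2 0 = 1 by decide +kernel)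
    rw [Fin.sum_univ_four, h1 2 2 0 rfl, h1 3 2 0 rfl] at h
    clear * - h
    omega
  have m25 : w 0 2 5 + w 3 2 5 = 1 := by
    have h := (hM 2 5).trans (show ∑ i, x i 2 5 = 1 by decide +kernel)
    rw [Fin.sum_univ_four, h1 1 2 5 rfl, h1 2 2 5 rfl] at h
    clear * - h
    omega
  have m26 : w 1 2 6 + w 3 2 6 = 1 := by
    have h := (hM 2 6).trans (show ∑ i, x i 2 6 = 1 by decide +kernel)
    rw [Fin.sum_univ_four, h1 0 2 6 rfl, h1 2 2 6 rfl] at h
    clear * - h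
    omega
  have m30 : w 0 3 0 + w 2 3 0 = 1 := by
    have h := (hM 3 0).trans (show ∑ i, x i 3 0 = 1 by decide +kernel)
    rw [Fin.sum_univ_four, h1 1 3 0 rfl, h1 3 3 0 rfl] at h
    clear * - h
    omega
  have m37 : w 0 3 7 + w 2 3 7 = 1 := by
    have h := (hM 3 7).trans (show ∑ i, x i 3 7 = 1 by decide +kernel)
    rw [Fin.sum_univ_four, h1 1 3 7 rfl, h1 3 3 7 rfl] at h
    clear * - h
    omega
  have m41 : w 0 4 1 + w 1 4 1 = 1 := by
    have h := (hM 4 1).trans (show ∑ i, x i 4 1 = 1 by decide +kernel)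
    rw [Fin.sum_univ_four, h1 2 4 1 rfl, h1 3 4 1 rfl] at h
    clear * - h
    omega
  have m43 : w 0 4 3 + w 3 4 3 = 1 := by
    have h := (hM 4 3).trans (show ∑ i, x i 4 3 = 1 by decide +kernel)
    rw [Fin.sum_univ_four, h1 1 4 3 rfl, h1 2 4 3 rfl] at h
    clear * - h
    omega
  have m48 : w 1 4 8 + w 3 4 8 = 1 := by
    have h := (hM 4 8).trans (show ∑ i, x i 4 8 = 1 by decide +kernel)
    rw [Fin.sum_univ_four, h1 0 4 8 rfl, h1 2 4 8 rfl] at h
    clear * - h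
    omega
  have m51 : w 0 5 1 + w 2 5 1 = 1 := by
    have h := (hM 5 1).trans (show ∑ i, x i 5 1 = 1 by decide +kernel)
    rw [Fin.sum_univ_four, h1 1 5 1 rfl, h1 3 5 1 rfl] at h
    clear * - h
    omega
  have m52 : w 0 5 2 + w 3 5 2 = 1 := by
    have h := (hM 5 2).trans (show ∑ i, x i 5 2 = 1 by decide +kernel)
    rw [Fin.sum_univ_four, h1 1 5 2 rfl, h1 2 5 2 rfl] at h
    clear * - h
    omega
  have m59 : w 2 5 9 + w 3 5 9 = 1 := by
    have h := (hM 5 9).trans (show ∑ i, x i 5 9 = 1 by decide +kernel)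
    rw [Fin.sum_univ_four, h1 0 5 9 rfl, h1 1 5 9 rfl] at h
    clear * - h
    omega
  have m62 : w 1 6 2 + w 3 6 2 = 1 := by
    have h := (hM 6 2).trans (show ∑ i, x i 6 2 = 1 by decide +kernel)
    rw [Fin.sum_univ_four, h1 0 6 2 rfl, h1 2 6 2 rfl] at h
    clear * - h
    omega
  have m68 : w 1 6 8 + w 3 6 8 = 1 := by
    have h := (hM 6 8).trans (show ∑ i, x i 6 8 = 1 by decide +kernel)
    rw [Fin.sum_univ_four, h1 0 6 8 rfl, h1 2 6 8 rfl] at h
    clear * - h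
    omega
  have m73 : w 2 7 3 + w 3 7 3 = 1 := by
    have h := (hM 7 3).trans (show ∑ i, x i 7 3 = 1 by decide +kernel)
    rw [Fin.sum_univ_four, h1 0 7 3 rfl, h1 1 7 3 rfl] at h
    clear * - h
    omega
  have m79 : w 2 7 9 + w 3 7 9 = 1 := by
    have h := (hM 7 9).trans (show ∑ i, x i 7 9 = 1 by decide +kernel)
    rw [Fin.sum_univ_four, h1 0 7 9 rfl, h1 1 7 9 rfl] at h
    clear * - h
    omega
  have m84 : w 0 8 4 + w 1 8 4 = 1 := by
    have h := (hM 8 4).trans (show ∑ i, x i 8 4 = 1 by decide +kernel)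
    rw [Fin.sum_univ_four, h1 2 8 4 rfl, h1 3 8 4 rfl] at h
    clear * - h
    omega
  have m86 : w 1 8 6 + w 2 8 6 = 1 := by
    have h := (hM 8 6).trans (show ∑ i, x i 8 6 = 1 by decide +kernel)
    rw [Fin.sum_univ_four, h1 0 8 6 rfl, h1 3 8 6 rfl] at h
    clear * - h
    omega
  have m87 : w 0 8 7 + w 2 8 7 = 1 := by
    have h := (hM 8 7).trans (show ∑ i, x i 8 7 = 1 by decide +kernel)
    rw [Fin.sum_univ_four, h1 1 8 7 rfl, h1 3 8 7 rfl] at h
    clear * - h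
    omega
  have m95 : w 2 9 5 + w 3 9 5 = 1 := by
    have h := (hM 9 5).trans (show ∑ i, x i 9 5 = 1 by decide +kernel)
    rw [Fin.sum_univ_four, h1 0 9 5 rfl, h1 1 9 5 rfl] at h
    clear * - h
    omega
  have m96 : w 2 9 6 + w 3 9 6 = 1 := by
    have h := (hM 9 6).trans (show ∑ i, x i 9 6 = 1 by decide +kernel)
    rw [Fin.sum_univ_four, h1 0 9 6 rfl, h1 1 9 6 rfl] at h
    clear * - h
    omega
  clear hR hC hM h1
  have hc : w 0 1 4 = 0 ∨ w 0 1 4 = 1 := by clear * - m14; omega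
  rcases hc with v014 | v014
  · have v084 : w 0 8 4 = 1 := by clear * - c04 v014; omega
    have v114 : w 1 1 4 = 1 := by clear * - m14 v014; omega
    have v184 : w 1 8 4 = 0 := by clear * - m84 v084; omega
    have v087 : w 0 8 7 = 0 := by clear * - r08 v084; omega
    have v037 : w 0 3 7 = 1 := by clear * - c07 v087; omega
    have v110 : w 1 1 0 = 0 := by clear * - r11 v114; omega
    have v111 : w 1 1 1 = 0 := by clear * - r11 v114; omega
    have v186 : w 1 8 6 = 1 := by clear * - r18 v184; omega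
    have v126 : w 1 2 6 = 0 := by clear * - c16 v186; omega
    have v326 : w 3 2 6 = 1 := by clear * - m26 v126; omega
    have v237 : w 2 3 7 = 0 := by clear * - m37 v037; omega
    have v286 : w 2 8 6 = 0 := by clear * - m86 v186; omega
    have v287 : w 2 8 7 = 1 := by clear * - m87 v087; omega
    have v030 : w 0 3 0 = 0 := by clear * - r03 v037; omega
    have v120 : w 1 2 0 = 1 := by clear * - r12 v126; omega
    have v100 : w 1 0 0 = 0 := by clear * - c10 v110 v120; omega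
    have v230 : w 2 3 0 = 1 := by clear * - r23 v237; omega
    have v200 : w 2 0 0 = 0 := by clear * - c20 v230; omega
    have v210 : w 2 1 0 = 0 := by clear * - c20 v230; omega
    have v296 : w 2 9 6 = 1 := by clear * - c26 v286; omega
    have v325 : w 3 2 5 = 0 := by clear * - r32 v326; omega
    have v395 : w 3 9 5 = 1 := by clear * - c35 v325; omega
    have v396 : w 3 9 6 = 0 := by clear * - c36 v326; omega
    have v000 : w 0 0 0 = 1 := by clear * - m00 v100 v200; omega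
    have v010 : w 0 1 0 = 1 := by clear * - m10 v110 v210; omega
    have v020 : w 0 2 0 = 0 := by clear * - m20 v120; omega
    have v025 : w 0 2 5 = 1 := by clear * - m25 v325; omega
    have v295 : w 2 9 5 = 0 := by clear * - m95 v395; omega
    have v015 : w 0 1 5 = 0 := by clear * - c05 v025; omega
    have v215 : w 2 1 5 = 1 := by clear * - c25 v295; omega
    have v011 : w 0 1 1 = 1 := by clear * - r01 v010 v014 v015; omega
    have v211 : w 2 1 1 = 0 := by clear * - r21 v210 v215; omega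
    have hc : w 2 0 1 = 0 ∨ w 2 0 1 = 1 := by clear * - m01; omega
    rcases hc with v201 | v201
    · have v203 : w 2 0 3 = 1 := by clear * - r20 v200 v201; omega
      have v251 : w 2 5 1 = 1 := by clear * - c21 v201 v211; omega
      have v273 : w 2 7 3 = 0 := by clear * - c23 v203; omega
      have v003 : w 0 0 3 = 0 := by clear * - m03 v203; omega
      have v051 : w 0 5 1 = 0 := by clear * - m51 v251; omega
      have v373 : w 3 7 3 = 1 := by clear * - m73 v273; omega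
      have v052 : w 0 5 2 = 1 := by clear * - r05 v051; omega
      have v002 : w 0 0 2 = 0 := by clear * - c02 v052; omega
      have v043 : w 0 4 3 = 1 := by clear * - c03 v003; omega
      have v259 : w 2 5 9 = 0 := by clear * - r25 v251; omega
      have v279 : w 2 7 9 = 1 := by clear * - r27 v273; omega
      have v379 : w 3 7 9 = 0 := by clear * - r37 v373; omega
      have v343 : w 3 4 3 = 0 := by clear * - c33 v373; omega
      have v359 : w 3 5 9 = 1 := by clear * - c39 v379; omega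
      have v102 : w 1 0 2 = 1 := by clear * - m02 v002; omega
      have v352 : w 3 5 2 = 0 := by clear * - m52 v052; omega
      have v001 : w 0 0 1 = 1 := by clear * - r00 v000 v002 v003; omega
      have v041 : w 0 4 1 = 0 := by clear * - r04 v043; omega
      have v101 : w 1 0 1 = 0 := by clear * - r10 v100 v102; omega
      have v141 : w 1 4 1 = 1 := by clear * - c11 v101 v111; omega
      have v162 : w 1 6 2 = 0 := by clear * - c12 v102; omega
      have v348 : w 3 4 8 = 1 := by clear * - r34 v343; omega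
      have v362 : w 3 6 2 = 1 := by clear * - c32 v352; omega
      have v368 : w 3 6 8 = 0 := by clear * - c38 v348; omega
      have v148 : w 1 4 8 = 0 := by clear * - m48 v348; omega
      have v168 : w 1 6 8 = 1 := by clear * - m68 v368; omega
      left
      refine ext_of w x h0 (fun i j k h => (L_zero i j k h).1) ?_
      simp only [L, List.forall_mem_cons, List.not_mem_nil, false_imp_iff, implies_true, and_true]
      exact ⟨v000, v100, v200, v001, v101, v201, v002, v102, v003, v203, v010, v110, v210, v011, v111, v211, v014, v114, v015, v215, v020, v120, v025, v325, v126, v326, v030, v230, v037, v237, v041, v141, v043, v343, v148, v348, v051, v251, v052, v352, v259, v359, v162, v362, v168, v368, v273, v373, v279, v379, v084, v184, v186, v286, v087, v287, v295, v395, v296, v396⟩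
    · have v203 : w 2 0 3 = 0 := by clear * - r20 v200 v201; omega
      have v251 : w 2 5 1 = 0 := by clear * - c21 v201 v211; omega
      have v273 : w 2 7 3 = 1 := by clear * - c23 v203; omega
      have v001 : w 0 0 1 = 0 := by clear * - m01 v201; omega
      have v101 : w 1 0 1 = 0 := by clear * - m01 v201; omega
      have v003 : w 0 0 3 = 1 := by clear * - m03 v203; omega
      have v051 : w 0 5 1 = 1 := by clear * - m51 v251; omega
      have v373 : w 3 7 3 = 0 := by clear * - m73 v273; omega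
      have v002 : w 0 0 2 = 0 := by clear * - r00 v000 v001 v003; omega
      have v052 : w 0 5 2 = 0 := by clear * - r05 v051; omega
      have v041 : w 0 4 1 = 0 := by clear * - c01 v001 v011 v051; omega
      exfalso; clear * - c02 v002 v052; omega
  · have v084 : w 0 8 4 = 0 := by clear * - c04 v014; omega
    have v114 : w 1 1 4 = 0 := by clear * - m14 v014; omega
    have v184 : w 1 8 4 = 1 := by clear * - m84 v084; omega
    have v087 : w 0 8 7 = 1 := by clear * - r08 v084; omega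
    have v037 : w 0 3 7 = 0 := by clear * - c07 v087; omega
    have v186 : w 1 8 6 = 0 := by clear * - r18 v184; omega
    have v126 : w 1 2 6 = 1 := by clear * - c16 v186; omega
    have v326 : w 3 2 6 = 0 := by clear * - m26 v126; omega
    have v237 : w 2 3 7 = 1 := by clear * - m37 v037; omega
    have v286 : w 2 8 6 = 1 := by clear * - m86 v186; omega
    have v287 : w 2 8 7 = 0 := by clear * - m87 v087; omega
    have v030 : w 0 3 0 = 1 := by clear * - r03 v037; omega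
    have v120 : w 1 2 0 = 0 := by clear * - r12 v126; omega
    have v230 : w 2 3 0 = 0 := by clear * - r23 v237; omega
    have v296 : w 2 9 6 = 0 := by clear * - c26 v286; omega
    have v325 : w 3 2 5 = 1 := by clear * - r32 v326; omega
    have v395 : w 3 9 5 = 0 := by clear * - c35 v325; omega
    have v396 : w 3 9 6 = 1 := by clear * - c36 v326; omega
    have v020 : w 0 2 0 = 1 := by clear * - m20 v120; omega
    have v025 : w 0 2 5 = 0 := by clear * - m25 v325; omega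
    have v295 : w 2 9 5 = 1 := by clear * - m95 v395; omega
    have v000 : w 0 0 0 = 0 := by clear * - c00 v020 v030; omega
    have v010 : w 0 1 0 = 0 := by clear * - c00 v020 v030; omega
    have v015 : w 0 1 5 = 1 := by clear * - c05 v025; omega
    have v215 : w 2 1 5 = 0 := by clear * - c25 v295; omega
    have v011 : w 0 1 1 = 0 := by clear * - r01 v010 v014 v015; omega
    have hc : w 1 0 0 = 0 ∨ w 1 0 0 = 1 := by clear * - m00; omega
    rcases hc with v100 | v100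
    · have v110 : w 1 1 0 = 1 := by clear * - c10 v100 v120; omega
      have v200 : w 2 0 0 = 1 := by clear * - m00 v000 v100; omega
      have v210 : w 2 1 0 = 0 := by clear * - m10 v010 v110; omega
      have v111 : w 1 1 1 = 0 := by clear * - r11 v110 v114; omega
      have v201 : w 2 0 1 = 0 := by clear * - r20 v200; omega
      have v203 : w 2 0 3 = 0 := by clear * - r20 v200; omega
      have v211 : w 2 1 1 = 1 := by clear * - r21 v210 v215; omega
      have v251 : w 2 5 1 = 0 := by clear * - c21 v201 v211; omega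
      have v273 : w 2 7 3 = 1 := by clear * - c23 v203; omega
      have v003 : w 0 0 3 = 1 := by clear * - m03 v203; omega
      have v051 : w 0 5 1 = 1 := by clear * - m51 v251; omega
      have v373 : w 3 7 3 = 0 := by clear * - m73 v273; omega
      have v052 : w 0 5 2 = 0 := by clear * - r05 v051; omega
      have v002 : w 0 0 2 = 1 := by clear * - c02 v052; omega
      have v043 : w 0 4 3 = 0 := by clear * - c03 v003; omega
      have v259 : w 2 5 9 = 1 := by clear * - r25 v251; omega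
      have v279 : w 2 7 9 = 0 := by clear * - r27 v273; omega
      have v379 : w 3 7 9 = 1 := by clear * - r37 v373; omega
      have v343 : w 3 4 3 = 1 := by clear * - c33 v373; omega
      have v359 : w 3 5 9 = 0 := by clear * - c39 v379; omega
      have v102 : w 1 0 2 = 0 := by clear * - m02 v002; omega
      have v352 : w 3 5 2 = 1 := by clear * - m52 v052; omega
      have v001 : w 0 0 1 = 0 := by clear * - r00 v000 v002 v003; omega
      have v041 : w 0 4 1 = 1 := by clear * - r04 v043; omega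
      have v101 : w 1 0 1 = 1 := by clear * - r10 v100 v102; omega
      have v141 : w 1 4 1 = 0 := by clear * - c11 v101 v111; omega
      have v162 : w 1 6 2 = 1 := by clear * - c12 v102; omega
      have v348 : w 3 4 8 = 0 := by clear * - r34 v343; omega
      have v362 : w 3 6 2 = 0 := by clear * - c32 v352; omega
      have v368 : w 3 6 8 = 1 := by clear * - c38 v348; omega
      have v148 : w 1 4 8 = 1 := by clear * - m48 v348; omega
      have v168 : w 1 6 8 = 0 := by clear * - m68 v368; omega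
      right; right
      refine ext_of w z h0 (fun i j k h => (L_zero i j k h).2.2) ?_
      simp only [L, List.forall_mem_cons, List.not_mem_nil, false_imp_iff, implies_true, and_true]
      exact ⟨v000, v100, v200, v001, v101, v201, v002, v102, v003, v203, v010, v110, v210, v011, v111, v211, v014, v114, v015, v215, v020, v120, v025, v325, v126, v326, v030, v230, v037, v237, v041, v141, v043, v343, v148, v348, v051, v251, v052, v352, v259, v359, v162, v362, v168, v368, v273, v373, v279, v379, v084, v184, v186, v286, v087, v287, v295, v395, v296, v396⟩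
    · have v101 : w 1 0 1 = 0 := by clear * - r10 v100; omega
      have v102 : w 1 0 2 = 0 := by clear * - r10 v100; omega
      have v110 : w 1 1 0 = 0 := by clear * - c10 v100 v120; omega
      have v162 : w 1 6 2 = 1 := by clear * - c12 v102; omega
      have v200 : w 2 0 0 = 0 := by clear * - m00 v000 v100; omega
      have v002 : w 0 0 2 = 1 := by clear * - m02 v102; omega
      have v210 : w 2 1 0 = 1 := by clear * - m10 v010 v110; omega
      have v362 : w 3 6 2 = 0 := by clear * - m62 v162; omega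
      have v052 : w 0 5 2 = 0 := by clear * - c02 v002; omega
      have v111 : w 1 1 1 = 1 := by clear * - r11 v110 v114; omega
      have v168 : w 1 6 8 = 0 := by clear * - r16 v162; omega
      have v141 : w 1 4 1 = 0 := by clear * - c11 v101 v111; omega
      have v148 : w 1 4 8 = 1 := by clear * - c18 v168; omega
      have v211 : w 2 1 1 = 0 := by clear * - r21 v210 v215; omega
      have v368 : w 3 6 8 = 1 := by clear * - r36 v362; omega
      have v352 : w 3 5 2 = 1 := by clear * - c32 v362; omega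
      have v348 : w 3 4 8 = 0 := by clear * - c38 v368; omega
      have v041 : w 0 4 1 = 1 := by clear * - m41 v141; omega
      have v043 : w 0 4 3 = 0 := by clear * - r04 v041; omega
      have v051 : w 0 5 1 = 1 := by clear * - r05 v052; omega
      have v001 : w 0 0 1 = 0 := by clear * - c01 v011 v041 v051; omega
      have v003 : w 0 0 3 = 1 := by clear * - c03 v043; omega
      have v343 : w 3 4 3 = 1 := by clear * - r34 v348; omega
      have v359 : w 3 5 9 = 0 := by clear * - r35 v352; omega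
      have v373 : w 3 7 3 = 0 := by clear * - c33 v343; omega
      have v379 : w 3 7 9 = 1 := by clear * - c39 v359; omega
      have v201 : w 2 0 1 = 1 := by clear * - m01 v001 v101; omega
      have v203 : w 2 0 3 = 0 := by clear * - m03 v003; omega
      have v251 : w 2 5 1 = 0 := by clear * - m51 v051; omega
      have v259 : w 2 5 9 = 1 := by clear * - m59 v359; omega
      have v273 : w 2 7 3 = 1 := by clear * - m73 v373; omega
      have v279 : w 2 7 9 = 0 := by clear * - m79 v379; omega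
      right; left
      refine ext_of w y h0 (fun i j k h => (L_zero i j k h).2.1) ?_
      simp only [L, List.forall_mem_cons, List.not_mem_nil, false_imp_iff, implies_true, and_true]
      exact ⟨v000, v100, v200, v001, v101, v201, v002, v102, v003, v203, v010, v110, v210, v011, v111, v211, v014, v114, v015, v215, v020, v120, v025, v325, v126, v326, v030, v230, v037, v237, v041, v141, v043, v343, v148, v348, v051, v251, v052, v352, v259, v359, v162, v362, v168, v368, v273, v373, v279, v379, v084, v184, v186, v286, v087, v287, v295, v395, v296, v396⟩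

end Pool.Agent.H.MP_d7b467_co
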